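import Mathlib
import Pool.Agent.U945.LA.Five

/-!
# The five numbers for all algebraic multiples

For an algebraic number `x ≠ 0` consider the numbers

  `π + x e`, `(π + x - 1) e`, `(x π ^ a e ^ (b + c π)) ^ (β e)`, `(x π ^ a e ^ (b + c π)) ^ (β π)`

with algebraic `a`, `b`, `c` and `β ≠ 0`. For `x = 1` the numbers `π + e`, `π e`, `π ^ e`, `e ^ e`,
`π ^ π` of the problem are among them.

(1) If one of them is algebraic, or, for the powers, of the form `e ^ w` with `w` in `LogForms`, for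
some value of the power, then `x` is called exceptional (`Five`). At most five exceptional `x` are
multiplicatively independent. So for all prime numbers `x`, with at most five exceptions, all these
numbers are transcendental. There is an absolute constant `C` such that for all complex `a b ≠ 0` at
most `C` pairs `(x, y)` of exceptional numbers satisfy `a x + b y = 1`.

(2) Let `U` be a vector space of dimension `D` over the algebraic numbers, which contains `1` and `π`
(for instance the space generated by `1`, `π`, `e`, `π e`, with `D = 4`). The algebraic numbers `x ≠ 0`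
for which some value of a number `(x π ^ a e ^ (b + c π)) ^ ξ` with algebraic `a`, `b`, `c` and
transcendental `ξ` in `U` is of the form `e ^ w` with `w` in `LogForms`, in particular if it is
algebraic, contain at most `D ^ 2 - 1` multiplicatively independent ones, and at most `C ^ (D ^ 2)` pairs
`(x, y)` with `a x + b y = 1`.

(3) Let `A` be the union of these sets. For every algebraic subset `Z` of `G_m^d` over `ℂ` the points of
`Z` with coordinates in `A` are contained in finitely many cosets of algebraic subgroups which are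
contained in `Z`; so they are finite in number if each coset contained in `Z` is finite, for instance if
`Z` is an irreducible curve which is not a coset.

Ingredients: the hyperplane case of the linear subgroup theorem of Waldschmidt and Roy, Baker's theorem,
the theorem on the unit equation in groups of finite rank of algebraic numbers (Laurent), proved in
`Pool.Agent.U945.LA`, and for lines the theorem of Beukers and Schlickewei.
-/

set_option autoImplicit false

namespace Pool.Agent.Results.MP_a49cf6_nt.AlgebraicMultiples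

open Pool.Agent.U945.LA (RkLe line_set pack five_rank Ex Ex_rank Sm Pw primes_enc)
open Pool.Agent.H301R2.SSE (QB mem_QB Lt Lt_log Lt_mul)

/-- The linear combinations, with algebraic coefficients, of `1` and of logarithms of algebraic
numbers. If `e ^ w` is algebraic, then `w` is in `LogForms`. -/
noncomputable def LogForms : Submodule (algebraicClosure ℚ ℂ) ℂ :=
  Submodule.span (algebraicClosure ℚ ℂ) ({1} ∪ {z : ℂ | IsAlgebraic ℚ (Complex.exp z)})

/-- `l` is a logarithm of `x`, up to a rational multiple of `2 π i` -/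
def IsLog (x : ℂˣ) (l : ℂ) : Prop := ∃ n : ℕ, 0 < n ∧ Complex.exp (n * l) = (x : ℂ) ^ n

/-- `v` times some logarithm of `x π ^ a e ^ (b + c π)` is in `LogForms`, with algebraic `a`, `b`, `c`. -/
def PowerForm (x : ℂˣ) (v : ℂ) : Prop :=
  ∃ l a b c : ℂ, IsLog x l ∧ IsAlgebraic ℚ a ∧ IsAlgebraic ℚ b ∧ IsAlgebraic ℚ c ∧
    v * (l + a * Real.log Real.pi + b + c * Real.pi) ∈ LogForms

/-- The exceptional numbers for the five numbers of the problem. -/
def Five : Set ℂˣ :=
  {x | IsAlgebraic ℚ (x : ℂ) ∧ (IsAlgebraic ℚ ((Real.pi : ℂ) + x * Real.exp 1) ∨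
    IsAlgebraic ℚ (((Real.pi : ℂ) + x - 1) * Real.exp 1) ∨ PowerForm x (Real.exp 1 : ℝ) ∨
    PowerForm x Real.pi)}

/-- The exceptional numbers for the exponents in `U`. -/
def Exceptional (U : Submodule (algebraicClosure ℚ ℂ) ℂ) : Set ℂˣ :=
  {x | IsAlgebraic ℚ (x : ℂ) ∧ ∃ ξ ∈ U, Transcendental ℚ ξ ∧ PowerForm x ξ}

/-- All the (real) numbers considered for `x > 0` are transcendental. -/
def AllTranscendental (x : ℝ) : Prop :=
  Transcendental ℚ (Real.pi + x * Real.exp 1) ∧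
  Transcendental ℚ ((Real.pi + x - 1) * Real.exp 1) ∧
  ∀ a b c β : ℝ, IsAlgebraic ℚ a → IsAlgebraic ℚ b → IsAlgebraic ℚ c → IsAlgebraic ℚ β → β ≠ 0 →
    Transcendental ℚ ((x * Real.pi ^ a * Real.exp 1 ^ (b + c * Real.pi)) ^ (β * Real.exp 1)) ∧
    Transcendental ℚ ((x * Real.pi ^ a * Real.exp 1 ^ (b + c * Real.pi)) ^ (β * Real.pi))

/-- `A` contains at most `B` multiplicatively independent elements. -/
def RankAtMost (A : Set ℂˣ) (B : ℕ) : Prop :=
  ∀ (n : ℕ) (X : Fin n → ℂˣ), (∀ j, X j ∈ A) → (∀ k : Fin n → ℤ, ∏ j, X j ^ k j = 1 → k = 0) → n ≤ B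

/-- The coset of an algebraic subgroup of the torus: the `z` such that `z ^ m = y ^ m` for all `m` in
the finite set `M` of integral vectors. -/
def Coset {d : ℕ} (y : Fin d → ℂˣ) (M : Finset (Fin d → ℤ)) : Set (Fin d → ℂˣ) :=
  {z | ∀ m ∈ M, ∏ i, z i ^ m i = ∏ i, y i ^ m i}

/-- The algebraic subset of the torus defined by the polynomials `P j`. -/
def Zeros {d s : ℕ} (P : Fin s → MvPolynomial (Fin d) ℂ) : Set (Fin d → ℂˣ) :=
  {z | ∀ j, MvPolynomial.eval (fun i => (z i : ℂ)) (P j) = 0}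

theorem Five_sub : Five ⊆ Sm ∪ (Pw (Real.exp 1 : ℝ) (Real.log Real.pi : ℝ) ∪
    Pw Real.pi (Real.log Real.pi : ℝ)) := by
  rintro x ⟨hx, h | h | ⟨l, a, b, c, hl, ha, hb, hc, h⟩ | ⟨l, a, b, c, hl, ha, hb, hc, h⟩⟩
  · exact Or.inl ⟨hx, Or.inl h⟩
  · exact Or.inl ⟨hx, Or.inr h⟩
  · exact Or.inr (Or.inl ⟨hx, l, hl, a, b, c, ha, hb, hc, h⟩)
  · exact Or.inr (Or.inr ⟨hx, l, hl, a, b, c, ha, hb, hc, h⟩)

theorem Exceptional_sub (U : Submodule (algebraicClosure ℚ ℂ) ℂ) :
    Exceptional U ⊆ Ex U (Real.log Real.pi : ℝ) := by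
  rintro x ⟨hx, ξ, hξ, hξt, l, a, b, c, hl, ha, hb, hc, h⟩
  exact ⟨hx, l, hl, ξ, hξ, hξt, a, b, c, ha, hb, hc, h⟩

theorem real_alg {x : ℝ} (h : IsAlgebraic ℚ x) : IsAlgebraic ℚ (x : ℂ) := h.algebraMap (A := ℂ)

theorem unit_log {x : ℝ} (hx : 0 < x) {u : ℂˣ} (hu : (u : ℂ) = x) :
    IsLog u (Real.log x : ℝ) := by
  refine ⟨1, one_pos, ?_⟩
  rw [Nat.cast_one, one_mul, pow_one, hu, ← Complex.ofReal_exp, Real.exp_log hx]

theorem power_form {x : ℝ} (hx : 0 < x) {u : ℂˣ} (hu : (u : ℂ) = x) {a b c β v : ℝ}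
    (ha : IsAlgebraic ℚ a) (hb : IsAlgebraic ℚ b) (hc : IsAlgebraic ℚ c) (hβ : IsAlgebraic ℚ β)
    (hβ0 : β ≠ 0)
    (h : IsAlgebraic ℚ ((x * Real.pi ^ a * Real.exp 1 ^ (b + c * Real.pi)) ^ (β * v))) :
    PowerForm u v := by
  refine ⟨(Real.log x : ℝ), a, b, c, unit_log hx hu, real_alg ha, real_alg hb, real_alg hc, ?_⟩
  have hpos : 0 < x * Real.pi ^ a * Real.exp 1 ^ (b + c * Real.pi) :=
    mul_pos (mul_pos hx (Real.rpow_pos_of_pos Real.pi_pos _))
      (Real.rpow_pos_of_pos (Real.exp_pos 1) _)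
  have hlog : Real.log (x * Real.pi ^ a * Real.exp 1 ^ (b + c * Real.pi)) =
      Real.log x + a * Real.log Real.pi + (b + c * Real.pi) := by
    rw [Real.log_mul (mul_pos hx (Real.rpow_pos_of_pos Real.pi_pos _)).ne'
      (Real.rpow_pos_of_pos (Real.exp_pos 1) _).ne',
      Real.log_mul hx.ne' (Real.rpow_pos_of_pos Real.pi_pos _).ne', Real.log_rpow Real.pi_pos,
      Real.log_rpow (Real.exp_pos 1), Real.log_exp, mul_one]
  rw [Real.rpow_def_of_pos hpos, hlog] at h
  have h1 := real_alg h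
  rw [Complex.ofReal_exp] at h1
  have h2 := Lt_mul (real_alg hβ).inv (Lt_log h1)
  have e1 : ((β : ℝ) : ℂ)⁻¹ *
      (((Real.log x + a * Real.log Real.pi + (b + c * Real.pi)) * (β * v) : ℝ) : ℂ) =
      (v : ℂ) * ((Real.log x : ℝ) + a * Real.log Real.pi + b + c * Real.pi) := by
    have : ((β : ℝ) : ℂ) ≠ 0 := by exact_mod_cast hβ0
    push_cast
    field_simp
    ring
  rw [e1] at h2
  exact h2

theorem five_of_not {x : ℝ} (hx : 0 < x) (hxa : IsAlgebraic ℚ x) {u : ℂˣ} (hu : (u : ℂ) = x)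
    (h : ¬ AllTranscendental x) : u ∈ Five := by
  refine ⟨by rw [hu]; exact real_alg hxa, ?_⟩
  unfold AllTranscendental at h
  rw [not_and_or, not_and_or] at h
  rcases h with h | h | h
  · left
    have h1 := real_alg (not_not.1 h)
    rw [hu]
    push_cast at h1 ⊢
    exact h1
  · right; left
    have h1 := real_alg (not_not.1 h)
    rw [hu]
    push_cast at h1 ⊢
    exact h1
  · right; right
    push Not at h
    obtain ⟨a, b, c, β, ha, hb, hc, hβ, hβ0, h⟩ := h
    by_cases h1 : Transcendental ℚ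
        ((x * Real.pi ^ a * Real.exp 1 ^ (b + c * Real.pi)) ^ (β * Real.exp 1))
    · exact Or.inr (power_form hx hu ha hb hc hβ hβ0 (not_not.1 (h h1)))
    · exact Or.inl (power_form hx hu ha hb hc hβ hβ0 (not_not.1 h1))

theorem units_indep {n : ℕ} {x : Fin n → ℝ} {u : Fin n → ℂˣ} (hu : ∀ i, (u i : ℂ) = x i)
    (hx : ∀ k : Fin n → ℤ, ∏ i, x i ^ k i = 1 → k = 0) (k : Fin n → ℤ)
    (hk : ∏ i, u i ^ k i = 1) : k = 0 := by
  apply hx
  have h1 := congrArg (fun z : ℂˣ => (z : ℂ)) hk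
  simp only [Units.coe_prod, Units.val_one, Units.val_zpow_eq_zpow_val] at h1
  rw [Finset.prod_congr rfl fun i _ => by rw [hu i]] at h1
  exact_mod_cast h1

theorem six {x : Fin 6 → ℝ} (hx : ∀ i, 0 < x i) (hxa : ∀ i, IsAlgebraic ℚ (x i))
    (hmi : ∀ k : Fin 6 → ℤ, ∏ i, x i ^ k i = 1 → k = 0) : ∃ i, AllTranscendental (x i) := by
  by_contra hcon
  push Not at hcon
  have hne : ∀ i, ((x i : ℝ) : ℂ) ≠ 0 := fun i => by exact_mod_cast (hx i).ne'
  have h1 := (five_rank (Real.log Real.pi : ℝ)).mono Five_sub 6 (fun i => Units.mk0 _ (hne i))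
    (fun i => five_of_not (hx i) (hxa i) rfl (hcon i)) (units_indep (fun i => rfl) hmi)
  omega

theorem primes : {p : ℕ | p.Prime ∧ ¬ AllTranscendental p}.encard ≤ 5 :=
  primes_enc (n := 5) fun _ h1 h2 h3 => six h1 h2 h3

/-- **The five numbers for all algebraic multiples.** -/
theorem result :
    -- (1) real numbers
    (∀ x : Fin 6 → ℝ, (∀ i, 0 < x i ∧ IsAlgebraic ℚ (x i)) →
      (∀ k : Fin 6 → ℤ, ∏ i, x i ^ k i = 1 → k = 0) → ∃ i, AllTranscendental (x i)) ∧
    {p : ℕ | p.Prime ∧ ¬ AllTranscendental p}.encard ≤ 5 ∧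
    (∀ (x : ℝ) (u : ℂˣ), 0 < x → IsAlgebraic ℚ x → (u : ℂ) = x → u ∉ Five → AllTranscendental x) ∧
    ∃ C : ℕ,
      -- (1) complex numbers
      RankAtMost Five 5 ∧
      (∀ a b : ℂ, a ≠ 0 → b ≠ 0 → ∀ E : Finset (ℂˣ × ℂˣ),
        (∀ e ∈ E, e.1 ∈ Five ∧ e.2 ∈ Five ∧ a * e.1 + b * e.2 = 1) → E.card ≤ C) ∧
      -- (2) spaces of exponents
      ∀ (U : Submodule (algebraicClosure ℚ ℂ) ℂ) (D : ℕ),
        FiniteDimensional (algebraicClosure ℚ ℂ) U → Module.finrank (algebraicClosure ℚ ℂ) U = D →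
        (1 : ℂ) ∈ U → (Real.pi : ℂ) ∈ U →
        RankAtMost (Exceptional U) (D ^ 2 - 1) ∧
        (∀ a b : ℂ, a ≠ 0 → b ≠ 0 → ∀ E : Finset (ℂˣ × ℂˣ),
          (∀ e ∈ E, e.1 ∈ Exceptional U ∧ e.2 ∈ Exceptional U ∧ a * e.1 + b * e.2 = 1) →
            E.card ≤ C ^ (D ^ 2)) ∧
        -- (3) subvarieties of tori
        ∀ d : ℕ,
          (∀ (s : ℕ) (P : Fin s → MvPolynomial (Fin d) ℂ),
            ∃ T : Finset ((Fin d → ℂˣ) × Finset (Fin d → ℤ)),
              (∀ t ∈ T, (∀ i, t.1 i ∈ Five ∪ Exceptional U) ∧ Coset t.1 t.2 ⊆ Zeros P) ∧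
              ∀ x : Fin d → ℂˣ, (∀ i, x i ∈ Five ∪ Exceptional U) → x ∈ Zeros P →
                ∃ t ∈ T, x ∈ Coset t.1 t.2) ∧
          (∀ (s : ℕ) (P : Fin s → MvPolynomial (Fin d) ℂ),
            (∀ y M, Coset y M ⊆ Zeros P → (Coset y M).Finite) →
              {x | (∀ i, x i ∈ Five ∪ Exceptional U) ∧ x ∈ Zeros P}.Finite) ∧
          (∀ a : Fin d → ℂ, {x : Fin d → ℂˣ | (∀ i, x i ∈ Five ∪ Exceptional U) ∧
            ∑ i, a i * (x i : ℂ) = 1 ∧
            ∀ J : Finset (Fin d), J.Nonempty → ∑ i ∈ J, a i * (x i : ℂ) ≠ 0}.Finite) := by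
  obtain ⟨C, hC1, hC⟩ := line_set
  have hfive : RkLe Five 5 := (five_rank (Real.log Real.pi : ℝ)).mono Five_sub
  refine ⟨fun x hx hmi => six (fun i => (hx i).1) (fun i => (hx i).2) hmi, primes,
    fun x u hx hxa hu h => by_contra fun hcon => h (five_of_not hx hxa hu hcon), C ^ 6, hfive,
    fun a b ha hb E hE => hC Five 5 hfive a b ha hb E hE, ?_⟩
  intro U D hfd hD h1 hpi
  have := hfd
  have hU : RkLe (Exceptional U) (D ^ 2 - 1) := by
    rw [← hD]
    exact (Ex_rank U (Real.log Real.pi : ℝ) h1 hpi).mono (Exceptional_sub U)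
  refine ⟨hU, fun a b ha hb E hE => ?_, fun d => ?_⟩
  · have h2 := hC _ _ hU a b ha hb E hE
    refine h2.trans ?_
    have h3 : 1 ≤ D := by
      by_contra hcon
      have h0 : Module.finrank (algebraicClosure ℚ ℂ) U = 0 := by omega
      rw [Submodule.finrank_eq_zero] at h0
      rw [h0, Submodule.mem_bot] at h1
      exact one_ne_zero h1
    have h4 : 1 ≤ D ^ 2 := Nat.one_le_pow _ _ h3
    rw [← pow_mul]
    exact Nat.pow_le_pow_right hC1 (by omega)
  · refine pack (A := Five ∪ Exceptional U) (fun x hx => ?_) (hfive.union hU) d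
    rcases hx with hx | hx
    · exact hx.1
    · exact hx.1

end Pool.Agent.Results.MP_a49cf6_nt.AlgebraicMultiples
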