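import Mathlib
import Pool.Agent.U945.LA.Five
import Pool.Agent.U945.LA.SeqR

/-!
# The five numbers for the terms of explicit sequences

For an algebraic number `x > 0` consider the numbers

  `π + x e`, `(π + x - 1) e`, `(x π ^ a e ^ (b + c π)) ^ (β e)`, `(x π ^ a e ^ (b + c π)) ^ (β π)`

with arbitrary real algebraic `a`, `b`, `c` and `β ≠ 0`. For `x = 1` the numbers `π + e`, `π e`, `π ^ e`,
`e ^ e`, `π ^ π` of the problem are among them. We say that `x` is good if ALL these numbers are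
transcendental. We show that nearly all terms of the following sequences are good.

(1) `x = |r(q)|`, for every rational function `r` over `ℚ` with at least three different zeros and poles
on the projective line over `ℂ` (for instance `r = X ^ 2 + 1`, or any polynomial with at least two
different complex zeros): all rational `q`, with finitely many exceptions.

(2) `x = c_1 a_1 ^ n + ⋯ + c_k a_k ^ n > 0`, for nonzero algebraic `c_i`, `a_i` such that no `a_i / a_j`,
`i ≠ j`, is a root of unity, `k ≥ 2`: all integers `n` with finitely many exceptions. If `k = 2` there are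
at most `C` exceptions, with an absolute constant `C`. The same for `c a ^ n + d b ^ m` and the pairs
`(n, m)` of integers, if `a` and `b` are multiplicatively independent.

(3) The positive integers `n`, not divisible by `b`, with at most `k` nonzero digits in base `b`: all of
them with finitely many exceptions.

(4) Let `U` be a vector space of dimension `D` over the algebraic numbers, which contains `1` and `π`
(for instance the space generated by `1`, `π`, `e`, `π e`, with `D = 4`). The same statements are proved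
for all powers `(x π ^ a e ^ (b + c π)) ^ ξ` with algebraic `a`, `b`, `c` and transcendental `ξ` in `U`, and
complex `x`, with at most `C ^ (D ^ 2)` exceptions in (2) for `k = 2`; no value of such a power is of the
form `e ^ w` with `w` in `LogForms`, with these exceptions.

Ingredients: the hyperplane case of the linear subgroup theorem of Waldschmidt and Roy, Baker's theorem
(rank bounds for the exceptional `x`, `Pool.Agent.U945.LA`), the unit equation in groups of finite rank of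
algebraic numbers, the Thue-Mahler theorem, and the theorem of Beukers and Schlickewei.
-/

set_option autoImplicit false

namespace Pool.Agent.Results.MP_a49cf6_nt.ExplicitSequences

open Polynomial
open Pool.Agent.U945.LA (RkLe five_rank Ex Ex_rank Sm Pw rat_set recur_set digits_set two_set)
open Pool.Agent.H301R2.SSE (QB mem_QB Lt Lt_log Lt_mul)

/-- The linear combinations, with algebraic coefficients, of `1` and of logarithms of algebraic
numbers. If `e ^ w` is algebraic, then `w` is in `LogForms`. -/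
noncomputable def LogForms : Submodule (algebraicClosure ℚ ℂ) ℂ :=
  Submodule.span (algebraicClosure ℚ ℂ) ({1} ∪ {z : ℂ | IsAlgebraic ℚ (Complex.exp z)})

/-- `l` is a logarithm of `x`, up to a rational multiple of `2 π i` -/
def IsLog (x : ℂˣ) (l : ℂ) : Prop := ∃ n : ℕ, 0 < n ∧ Complex.exp (n * l) = (x : ℂ) ^ n

/-- `v` times some logarithm of `x π ^ a e ^ (b + c π)` is in `LogForms`, with algebraic `a`, `b`, `c`. -/
def PowerForm (x : ℂˣ) (v : ℂ) : Prop :=
  ∃ l a b c : ℂ, IsLog x l ∧ IsAlgebraic ℚ a ∧ IsAlgebraic ℚ b ∧ IsAlgebraic ℚ c ∧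
    v * (l + a * Real.log Real.pi + b + c * Real.pi) ∈ LogForms

/-- The exceptional numbers for the five numbers of the problem. -/
def Five : Set ℂˣ :=
  {x | IsAlgebraic ℚ (x : ℂ) ∧ (IsAlgebraic ℚ ((Real.pi : ℂ) + x * Real.exp 1) ∨
    IsAlgebraic ℚ (((Real.pi : ℂ) + x - 1) * Real.exp 1) ∨ PowerForm x (Real.exp 1 : ℝ) ∨
    PowerForm x Real.pi)}

/-- The exceptional numbers for the exponents in `U`. -/
def Exceptional (U : Submodule (algebraicClosure ℚ ℂ) ℂ) : Set ℂˣ :=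
  {x | IsAlgebraic ℚ (x : ℂ) ∧ ∃ ξ ∈ U, Transcendental ℚ ξ ∧ PowerForm x ξ}

/-- All the (real) numbers considered for `x > 0` are transcendental. -/
def AllTranscendental (x : ℝ) : Prop :=
  Transcendental ℚ (Real.pi + x * Real.exp 1) ∧
  Transcendental ℚ ((Real.pi + x - 1) * Real.exp 1) ∧
  ∀ a b c β : ℝ, IsAlgebraic ℚ a → IsAlgebraic ℚ b → IsAlgebraic ℚ c → IsAlgebraic ℚ β → β ≠ 0 →
    Transcendental ℚ ((x * Real.pi ^ a * Real.exp 1 ^ (b + c * Real.pi)) ^ (β * Real.exp 1)) ∧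
    Transcendental ℚ ((x * Real.pi ^ a * Real.exp 1 ^ (b + c * Real.pi)) ^ (β * Real.pi))

/-- The number of different zeros and poles of the rational function `P / Q` on the projective line
over `ℂ`, for nonzero coprime polynomials `P` and `Q`: the number of the complex roots of `P Q`, without
multiplicity, plus one if the degrees are different (the point at infinity). -/
noncomputable def points (P Q : ℚ[X]) : ℕ :=
  ((P * Q).map (algebraMap ℚ ℂ)).roots.toFinset.card + if P.natDegree = Q.natDegree then 0 else 1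

/-- The natural numbers with at most `k` nonzero digits in base `b`. -/
def Few (b k : ℕ) : Set ℕ :=
  {n | ∃ J : Finset ℕ, J.card ≤ k ∧ ∃ d : ℕ → ℕ, (∀ m ∈ J, 0 < d m ∧ d m < b) ∧
    n = ∑ m ∈ J, d m * b ^ m}

theorem Five_sub : Five ⊆ Sm ∪ (Pw (Real.exp 1 : ℝ) (Real.log Real.pi : ℝ) ∪
    Pw Real.pi (Real.log Real.pi : ℝ)) := by
  rintro x ⟨hx, h | h | ⟨l, a, b, c, hl, ha, hb, hc, h⟩ | ⟨l, a, b, c, hl, ha, hb, hc, h⟩⟩
  · exact Or.inl ⟨hx, Or.inl h⟩
  · exact Or.inl ⟨hx, Or.inr h⟩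
  · exact Or.inr (Or.inl ⟨hx, l, hl, a, b, c, ha, hb, hc, h⟩)
  · exact Or.inr (Or.inr ⟨hx, l, hl, a, b, c, ha, hb, hc, h⟩)

theorem Exceptional_sub (U : Submodule (algebraicClosure ℚ ℂ) ℂ) :
    Exceptional U ⊆ Ex U (Real.log Real.pi : ℝ) := by
  rintro x ⟨hx, ξ, hξ, hξt, l, a, b, c, hl, ha, hb, hc, h⟩
  exact ⟨hx, l, hl, ξ, hξ, hξt, a, b, c, ha, hb, hc, h⟩

theorem real_alg {x : ℝ} (h : IsAlgebraic ℚ x) : IsAlgebraic ℚ (x : ℂ) := h.algebraMap (A := ℂ)

theorem unit_log {x : ℝ} (hx : 0 < x) {u : ℂˣ} (hu : (u : ℂ) = x) :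
    IsLog u (Real.log x : ℝ) := by
  refine ⟨1, one_pos, ?_⟩
  rw [Nat.cast_one, one_mul, pow_one, hu, ← Complex.ofReal_exp, Real.exp_log hx]

theorem power_form {x : ℝ} (hx : 0 < x) {u : ℂˣ} (hu : (u : ℂ) = x) {a b c β v : ℝ}
    (ha : IsAlgebraic ℚ a) (hb : IsAlgebraic ℚ b) (hc : IsAlgebraic ℚ c) (hβ : IsAlgebraic ℚ β)
    (hβ0 : β ≠ 0)
    (h : IsAlgebraic ℚ ((x * Real.pi ^ a * Real.exp 1 ^ (b + c * Real.pi)) ^ (β * v))) :
    PowerForm u v := by
  refine ⟨(Real.log x : ℝ), a, b, c, unit_log hx hu, real_alg ha, real_alg hb, real_alg hc, ?_⟩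
  have hpos : 0 < x * Real.pi ^ a * Real.exp 1 ^ (b + c * Real.pi) :=
    mul_pos (mul_pos hx (Real.rpow_pos_of_pos Real.pi_pos _))
      (Real.rpow_pos_of_pos (Real.exp_pos 1) _)
  have hlog : Real.log (x * Real.pi ^ a * Real.exp 1 ^ (b + c * Real.pi)) =
      Real.log x + a * Real.log Real.pi + (b + c * Real.pi) := by
    rw [Real.log_mul (mul_pos hx (Real.rpow_pos_of_pos Real.pi_pos _)).ne'
      (Real.rpow_pos_of_pos (Real.exp_pos 1) _).ne',
      Real.log_mul hx.ne' (Real.rpow_pos_of_pos Real.pi_pos _).ne', Real.log_rpow Real.pi_pos,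
      Real.log_rpow (Real.exp_pos 1), Real.log_exp, mul_one]
  rw [Real.rpow_def_of_pos hpos, hlog] at h
  have h1 := real_alg h
  rw [Complex.ofReal_exp] at h1
  have h2 := Lt_mul (real_alg hβ).inv (Lt_log h1)
  have e1 : ((β : ℝ) : ℂ)⁻¹ *
      (((Real.log x + a * Real.log Real.pi + (b + c * Real.pi)) * (β * v) : ℝ) : ℂ) =
      (v : ℂ) * ((Real.log x : ℝ) + a * Real.log Real.pi + b + c * Real.pi) := by
    have : ((β : ℝ) : ℂ) ≠ 0 := by exact_mod_cast hβ0
    push_cast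
    field_simp
    ring
  rw [e1] at h2
  exact h2

theorem five_of_not {x : ℝ} (hx : 0 < x) (hxa : IsAlgebraic ℚ x) {u : ℂˣ} (hu : (u : ℂ) = x)
    (h : ¬ AllTranscendental x) : u ∈ Five := by
  refine ⟨by rw [hu]; exact real_alg hxa, ?_⟩
  unfold AllTranscendental at h
  rw [not_and_or, not_and_or] at h
  rcases h with h | h | h
  · left
    have h1 := real_alg (not_not.1 h)
    rw [hu]
    push_cast at h1 ⊢
    exact h1
  · right; left
    have h1 := real_alg (not_not.1 h)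
    rw [hu]
    push_cast at h1 ⊢
    exact h1
  · right; right
    push Not at h
    obtain ⟨a, b, c, β, ha, hb, hc, hβ, hβ0, h⟩ := h
    by_cases h1 : Transcendental ℚ
        ((x * Real.pi ^ a * Real.exp 1 ^ (b + c * Real.pi)) ^ (β * Real.exp 1))
    · exact Or.inr (power_form hx hu ha hb hc hβ hβ0 (not_not.1 (h h1)))
    · exact Or.inl (power_form hx hu ha hb hc hβ hβ0 (not_not.1 h1))

theorem enc_le {α : Type} {s : Set α} {C : ℕ}
    (h : ∀ E : Finset α, (∀ e ∈ E, e ∈ s) → E.card ≤ C) : s.encard ≤ C := by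
  classical
  by_contra hcon
  push Not at hcon
  obtain ⟨t, ht, hc⟩ := Set.exists_subset_encard_eq (Order.add_one_le_of_lt hcon)
  have hfin : t.Finite := Set.finite_of_encard_eq_coe (k := C + 1) (by rw [hc]; push_cast; rfl)
  have h1 := h hfin.toFinset (fun e he => ht (hfin.mem_toFinset.1 he))
  have h2 : (hfin.toFinset.card : ℕ∞) = C + 1 := by
    rw [← Set.encard_coe_eq_coe_finsetCard, hfin.coe_toFinset, hc]
  have h3 : hfin.toFinset.card = C + 1 := by exact_mod_cast h2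
  omega

theorem mem_five {x : ℝ} (hx : 0 < x) (hxa : IsAlgebraic ℚ x) (h : ¬ AllTranscendental x) :
    ∃ u ∈ Five, (u : ℂ) = x := by
  have hne : (x : ℂ) ≠ 0 := by exact_mod_cast hx.ne'
  exact ⟨Units.mk0 _ hne, five_of_not hx hxa rfl h, rfl⟩

theorem five_alg : ∀ x ∈ Five, IsAlgebraic ℚ (x : ℂ) := fun _ hx => hx.1

theorem recur' {A : Set ℂˣ} (halg : ∀ x ∈ A, IsAlgebraic ℚ (x : ℂ)) {B : ℕ} (hB : RkLe A B)
    {k : ℕ} (hk : 2 ≤ k) (c a : Fin k → ℂ) (hc : ∀ i, IsAlgebraic ℚ (c i) ∧ c i ≠ 0)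
    (ha : ∀ i, IsAlgebraic ℚ (a i) ∧ a i ≠ 0)
    (hne : ∀ i j, i ≠ j → ∀ n : ℕ, n ≠ 0 → a i ^ n ≠ a j ^ n) :
    {n : ℤ | ∃ x ∈ A, (x : ℂ) = ∑ i, c i * a i ^ n}.Finite := by
  refine (recur_set halg hB hk (fun i => Units.mk0 _ (hc i).2) (fun i => Units.mk0 _ (ha i).2)
    (fun i => (hc i).1) (fun i => (ha i).1) (fun i j hij n hn h => hne i j hij n hn ?_)).subset ?_
  · have := congrArg (fun u : ℂˣ => (u : ℂ)) h
    simpa using this
  · rintro n ⟨x, hx, h⟩
    refine ⟨x, hx, ?_⟩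
    rw [h]
    refine Finset.sum_congr rfl fun i _ => ?_
    rw [Units.val_mul, Units.val_zpow_eq_zpow_val, Units.val_mk0, Units.val_mk0]

/-- **The five numbers for the terms of explicit sequences.** -/
theorem result :
    -- (1) values of rational functions
    (∀ P Q : ℚ[X], P ≠ 0 → Q ≠ 0 → IsCoprime P Q → 3 ≤ points P Q →
      {q : ℚ | P.eval q ≠ 0 ∧ Q.eval q ≠ 0 ∧
        ¬ AllTranscendental |((P.eval q / Q.eval q : ℚ) : ℝ)|}.Finite) ∧
    -- (2) recurrences
    (∀ (k : ℕ) (c a : Fin k → ℂ), 2 ≤ k → (∀ i, IsAlgebraic ℚ (c i) ∧ c i ≠ 0) →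
      (∀ i, IsAlgebraic ℚ (a i) ∧ a i ≠ 0) →
      (∀ i j, i ≠ j → ∀ n : ℕ, n ≠ 0 → a i ^ n ≠ a j ^ n) →
      {n : ℤ | ∃ x : ℝ, 0 < x ∧ (x : ℂ) = ∑ i, c i * a i ^ n ∧ ¬ AllTranscendental x}.Finite) ∧
    -- (3) few digits
    (∀ b k : ℕ, 2 ≤ b → {n : ℕ | n ∈ Few b k ∧ ¬ b ∣ n ∧ ¬ AllTranscendental n}.Finite) ∧
    ∃ C : ℕ,
      -- (2) two powers
      (∀ c d a b : ℂ, c ≠ 0 → d ≠ 0 → a ≠ 0 → b ≠ 0 →
        ((∀ n : ℕ, n ≠ 0 → a ^ n ≠ b ^ n) → {n : ℤ | ∃ x : ℝ, 0 < x ∧ IsAlgebraic ℚ x ∧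
          (x : ℂ) = c * a ^ n + d * b ^ n ∧ ¬ AllTranscendental x}.encard ≤ C) ∧
        ((∀ n m : ℤ, a ^ n = b ^ m → n = 0 ∧ m = 0) → {e : ℤ × ℤ | ∃ x : ℝ, 0 < x ∧
          IsAlgebraic ℚ x ∧ (x : ℂ) = c * a ^ e.1 + d * b ^ e.2 ∧
            ¬ AllTranscendental x}.encard ≤ C)) ∧
      -- (4) spaces of exponents
      ∀ (U : Submodule (algebraicClosure ℚ ℂ) ℂ) (D : ℕ),
        FiniteDimensional (algebraicClosure ℚ ℂ) U → Module.finrank (algebraicClosure ℚ ℂ) U = D →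
        (1 : ℂ) ∈ U → (Real.pi : ℂ) ∈ U →
        (∀ P Q : ℚ[X], P ≠ 0 → Q ≠ 0 → IsCoprime P Q → 3 ≤ points P Q →
          {q : ℚ | P.eval q ≠ 0 ∧ Q.eval q ≠ 0 ∧
            ∃ x ∈ Five ∪ Exceptional U, (x : ℂ) = ((P.eval q / Q.eval q : ℚ) : ℂ)}.Finite) ∧
        (∀ (k : ℕ) (c a : Fin k → ℂ), 2 ≤ k → (∀ i, IsAlgebraic ℚ (c i) ∧ c i ≠ 0) →
          (∀ i, IsAlgebraic ℚ (a i) ∧ a i ≠ 0) →
          (∀ i j, i ≠ j → ∀ n : ℕ, n ≠ 0 → a i ^ n ≠ a j ^ n) →
          {n : ℤ | ∃ x ∈ Five ∪ Exceptional U, (x : ℂ) = ∑ i, c i * a i ^ n}.Finite) ∧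
        (∀ b k : ℕ, 2 ≤ b →
          {n : ℕ | n ∈ Few b k ∧ ¬ b ∣ n ∧ ∃ x ∈ Five ∪ Exceptional U, (x : ℂ) = n}.Finite) ∧
        (∀ c d a b : ℂ, c ≠ 0 → d ≠ 0 → a ≠ 0 → b ≠ 0 →
          ((∀ n : ℕ, n ≠ 0 → a ^ n ≠ b ^ n) → {n : ℤ | ∃ x ∈ Five ∪ Exceptional U,
            (x : ℂ) = c * a ^ n + d * b ^ n}.encard ≤ (C ^ (D ^ 2) : ℕ)) ∧
          ((∀ n m : ℤ, a ^ n = b ^ m → n = 0 ∧ m = 0) → {e : ℤ × ℤ | ∃ x ∈ Five ∪ Exceptional U,
            (x : ℂ) = c * a ^ e.1 + d * b ^ e.2}.encard ≤ (C ^ (D ^ 2) : ℕ))) := by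
  obtain ⟨C, hC1, hC⟩ := two_set
  have hfive : RkLe Five 5 := (five_rank (Real.log Real.pi : ℝ)).mono Five_sub
  refine ⟨fun P Q hP hQ hPQ h3 => ?_, fun k c a hk hc ha hne => ?_, fun b k hb => ?_, C ^ 8,
    fun c d a b hc hd ha hb => ⟨fun hab => enc_le fun E hE => ?_, fun hab => enc_le fun E hE => ?_⟩,
    ?_⟩
  · refine (rat_set hfive hP hQ hPQ h3).subset ?_
    rintro q ⟨h1, h2, h⟩
    have h0 : (P.eval q / Q.eval q : ℚ) ≠ 0 := div_ne_zero h1 h2
    obtain ⟨u, hu, hu'⟩ := mem_five (abs_pos.2 (by exact_mod_cast h0)) (by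
      rw [← Rat.cast_abs]
      exact isAlgebraic_algebraMap (A := ℝ) _) h
    refine ⟨h1, h2, u, hu, ?_⟩
    rw [hu']
    rcases abs_choice ((P.eval q / Q.eval q : ℚ) : ℝ) with h4 | h4
    · left
      rw [h4]
      simp
    · right
      rw [h4]
      simp
  · refine (recur' five_alg hfive hk c a hc ha hne).subset ?_
    rintro n ⟨x, hx, hs, h⟩
    have hxa : IsAlgebraic ℚ x := by
      have h1 : IsAlgebraic ℚ (x : ℂ) := by
        rw [hs]
        refine mem_QB.1 (sum_mem fun i _ => mem_QB.2 ((hc i).1.mul ?_))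
        exact mem_QB.1 (zpow_mem (mem_QB.2 (ha i).1) n)
      exact (isAlgebraic_algebraMap_iff (R := ℚ) (A := ℂ) Complex.ofReal_injective).1 h1
    obtain ⟨u, hu, hu'⟩ := mem_five hx hxa h
    exact ⟨u, hu, by rw [hu', hs]⟩
  · refine (digits_set five_alg hfive hb k).subset ?_
    rintro n ⟨h1, h2, h⟩
    have hn : 0 < n := Nat.pos_of_ne_zero fun h => h2 (h ▸ dvd_zero b)
    obtain ⟨u, hu, hu'⟩ := mem_five (x := (n : ℝ)) (by exact_mod_cast hn)
      (isAlgebraic_natCast n) h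
    exact ⟨h1, h2, u, hu, by rw [hu']; simp⟩
  · refine (hC Five 5 hfive c d a b hc hd ha hb).1 hab E fun n hn => ?_
    obtain ⟨x, hx, hxa, hs, h⟩ := hE n hn
    obtain ⟨u, hu, hu'⟩ := mem_five hx hxa h
    exact ⟨u, hu, by rw [hu', hs]⟩
  · refine (hC Five 5 hfive c d a b hc hd ha hb).2 hab E fun n hn => ?_
    obtain ⟨x, hx, hxa, hs, h⟩ := hE n hn
    obtain ⟨u, hu, hu'⟩ := mem_five hx hxa h
    exact ⟨u, hu, by rw [hu', hs]⟩
  · intro U D hfd hD h1 hpi
    have := hfd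
    have hU : RkLe (Exceptional U) (D ^ 2 - 1) := by
      rw [← hD]
      exact (Ex_rank U (Real.log Real.pi : ℝ) h1 hpi).mono (Exceptional_sub U)
    have hA := hfive.union hU
    have halg : ∀ x ∈ Five ∪ Exceptional U, IsAlgebraic ℚ (x : ℂ) := by
      intro x hx
      rcases hx with hx | hx
      · exact hx.1
      · exact hx.1
    have h3 : 1 ≤ D := by
      by_contra hcon
      have h0 : Module.finrank (algebraicClosure ℚ ℂ) U = 0 := by omega
      rw [Submodule.finrank_eq_zero] at h0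
      rw [h0, Submodule.mem_bot] at h1
      exact one_ne_zero h1
    have h4 : 1 ≤ D ^ 2 := Nat.one_le_pow _ _ h3
    have hpow : C ^ (5 + (D ^ 2 - 1) + 3) ≤ (C ^ 8) ^ (D ^ 2) := by
      rw [← pow_mul]
      exact Nat.pow_le_pow_right hC1 (by omega)
    refine ⟨fun P Q hP hQ hPQ h3 => ?_, fun k c a hk hc ha hne => recur' halg hA hk c a hc ha hne,
      fun b k hb => digits_set halg hA hb k,
      fun c d a b hc hd ha hb => ⟨fun hab => enc_le fun E hE => ?_,
        fun hab => enc_le fun E hE => ?_⟩⟩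
    · refine (rat_set hA hP hQ hPQ h3).subset ?_
      rintro q ⟨h1, h2, x, hx, h⟩
      exact ⟨h1, h2, x, hx, Or.inl h⟩
    · exact ((hC _ _ hA c d a b hc hd ha hb).1 hab E fun n hn => hE n hn).trans hpow
    · exact ((hC _ _ hA c d a b hc hd ha hb).2 hab E fun n hn => hE n hn).trans hpow

end Pool.Agent.Results.MP_a49cf6_nt.ExplicitSequences
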