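import Mathlib
import Pool.Agent.U945.LA.Trans
import Pool.Agent.U945.LA.Exc

/-!
# Powers of the translates of `π` and `e`

The numbers `π ^ π`, `e ^ e`, `π ^ e` of the problem are the members `x = 0` of the families
`(π + x) ^ π`, `(e + x) ^ e`, `(π + x) ^ e` with algebraic `x`.

(1) Let `t` be a transcendental number, for instance `t = π` or `t = e`, and let `s ≠ 0` be any real
number, for instance `s = π` or `s = e`. There is at most one real algebraic `x` with `t + x > 0` such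
that `(t + x) ^ s` and `(t + x) ^ (s (a + b π))` are algebraic, for some algebraic `a` and `b ≠ 0`. So for
all algebraic `x`, with at most one exception, one of the numbers `(π + x) ^ π`, `(π + x) ^ (π ^ 2)` is
transcendental, and the same holds for `(π + x) ^ e`, `(π + x) ^ (e π)` and for `(e + x) ^ e`,
`(e + x) ^ (e π)`.

(2) More generally let `u_1, …, u_k` be real numbers. There are at most `(k + 2) (k + 1) - 1` real
algebraic `x` with `t + x > 0` such that `(t + x) ^ s` is algebraic and `(t + x) ^ (s ξ)` is algebraic for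
some transcendental `ξ` of the form `a + b π + c_1 u_1 + ⋯ + c_k u_k` with algebraic coefficients. For
instance there are at most `5` for the exponents `ξ = a + b π + c e`, and at most `11` for
`ξ = a + b π + c e + d π e`.

(3) All complex bases. Let `s ≠ 0` be complex, and let `U` be a vector space of dimension `D` over the
algebraic numbers which contains `1`. Let `Powers s U` be the set of all complex numbers `z ≠ 0` such
that some value `y` of `z ^ s` is algebraic and the corresponding value of `y ^ ξ = z ^ (s ξ)` is of the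
form `e ^ w` with `w` in `LogForms`, for some transcendental `ξ` in `U`. It contains at most
`D (D - 1)` multiplicatively independent numbers, and at most `D (D - 1) - 1` if `π` is in `U`. Hence it
contains `t + x` for at most so many algebraic numbers `x`, for every transcendental number `t`. There is
an absolute constant `C` such that for all complex `a b ≠ 0` at most `C ^ (D (D - 1) + 1)` pairs
`(z, z')` of elements of `Powers s U` satisfy `a z + b z' = 1` (`C ^ (D (D - 1))` if `π` is in `U`).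

Ingredients: the hyperplane case of the linear subgroup theorem of Waldschmidt and Roy, Baker's theorem,
and for lines the theorem of Beukers and Schlickewei.
-/

set_option autoImplicit false

namespace Pool.Agent.Results.MP_a49cf6_nt.TranslatesOfPiAndE

open Pool.Agent.U945.LA (RkLe line_set Zs Zs_rank translates_enc pi_tr e_tr)
open Pool.Agent.H301R2.SSE (QB mem_QB Lt Lt_log Lt_mul)

/-- The linear combinations, with algebraic coefficients, of `1` and of logarithms of algebraic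
numbers. If `e ^ w` is algebraic, then `w` is in `LogForms`. -/
noncomputable def LogForms : Submodule (algebraicClosure ℚ ℂ) ℂ :=
  Submodule.span (algebraicClosure ℚ ℂ) ({1} ∪ {z : ℂ | IsAlgebraic ℚ (Complex.exp z)})

/-- `l` is a logarithm of `z`, up to a rational multiple of `2 π i` -/
def IsLog (z : ℂˣ) (l : ℂ) : Prop := ∃ n : ℕ, 0 < n ∧ Complex.exp (n * l) = (z : ℂ) ^ n

/-- The complex `z ≠ 0` such that, for some logarithm `l` of `z`, the number `e ^ (s l)` is algebraic and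
`ξ s l` is in `LogForms` for some transcendental `ξ` in `U`. -/
def Powers (s : ℂ) (U : Submodule (algebraicClosure ℚ ℂ) ℂ) : Set ℂˣ :=
  {z | ∃ l : ℂ, IsLog z l ∧ IsAlgebraic ℚ (Complex.exp (s * l)) ∧
    ∃ ξ ∈ U, Transcendental ℚ ξ ∧ ξ * (s * l) ∈ LogForms}

/-- `A` contains at most `B` multiplicatively independent elements. -/
def RankAtMost (A : Set ℂˣ) (B : ℕ) : Prop :=
  ∀ (n : ℕ) (X : Fin n → ℂˣ), (∀ j, X j ∈ A) → (∀ k : Fin n → ℤ, ∏ j, X j ^ k j = 1 → k = 0) → n ≤ B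

/-- `ξ` is a transcendental linear form `a + b π + ∑ c_j u_j` with algebraic coefficients. -/
def IsForm {k : ℕ} (u : Fin k → ℝ) (ξ : ℝ) : Prop :=
  Transcendental ℚ ξ ∧ ∃ (a b : ℝ) (c : Fin k → ℝ), IsAlgebraic ℚ a ∧ IsAlgebraic ℚ b ∧
    (∀ j, IsAlgebraic ℚ (c j)) ∧ ξ = a + b * Real.pi + ∑ j, c j * u j

theorem real_alg {x : ℝ} (h : IsAlgebraic ℚ x) : IsAlgebraic ℚ (x : ℂ) := h.algebraMap (A := ℂ)

theorem real_tr {x : ℝ} (h : Transcendental ℚ x) : Transcendental ℚ (x : ℂ) := fun h' =>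
  h ((isAlgebraic_algebraMap_iff (algebraMap ℝ ℂ).injective).1 h')

theorem finrank_U {k : ℕ} (u : Fin k → ℝ) : ∃ U : Submodule (algebraicClosure ℚ ℂ) ℂ,
    ∃ _ : FiniteDimensional (algebraicClosure ℚ ℂ) U,
      Module.finrank (algebraicClosure ℚ ℂ) U ≤ k + 2 ∧ (1 : ℂ) ∈ U ∧ (Real.pi : ℂ) ∈ U ∧
      ∀ j, (u j : ℂ) ∈ U := by
  classical
  set f : Fin (k + 2) → ℂ := Fin.cons 1 (Fin.cons (Real.pi : ℂ) (fun j => (u j : ℂ))) with hf
  refine ⟨Submodule.span _ (Set.range f), FiniteDimensional.span_of_finite _ (Set.finite_range f),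
    ?_, Submodule.subset_span ⟨0, rfl⟩, Submodule.subset_span ⟨1, rfl⟩, fun j =>
    Submodule.subset_span ⟨j.succ.succ, rfl⟩⟩
  have := finrank_range_le_card (R := algebraicClosure ℚ ℂ) f
  rwa [Fintype.card_fin] at this

theorem form_mem {k : ℕ} {u : Fin k → ℝ} {ξ : ℝ} (h : IsForm u ξ)
    {U : Submodule (algebraicClosure ℚ ℂ) ℂ} (h1 : (1 : ℂ) ∈ U) (hpi : (Real.pi : ℂ) ∈ U)
    (hu : ∀ j, (u j : ℂ) ∈ U) : (ξ : ℂ) ∈ U := by
  obtain ⟨-, a, b, c, ha, hb, hc, rfl⟩ := h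
  have hmul : ∀ {a : ℝ} {z : ℂ}, IsAlgebraic ℚ a → z ∈ U → (a : ℂ) * z ∈ U := by
    intro a z ha hz
    have := U.smul_mem (⟨a, mem_QB.2 (real_alg ha)⟩ : QB) hz
    rw [Algebra.smul_def] at this
    exact this
  push_cast
  refine add_mem (add_mem ?_ (hmul hb hpi)) (sum_mem fun j _ => hmul (hc j) (hu j))
  have := hmul ha h1
  rwa [mul_one] at this

/-- translates, real numbers -/
theorem real_enc {k : ℕ} (u : Fin k → ℝ) {t s : ℝ} (ht : Transcendental ℚ t) (hs : s ≠ 0) :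
    {x : ℝ | IsAlgebraic ℚ x ∧ 0 < t + x ∧ IsAlgebraic ℚ ((t + x) ^ s) ∧
      ∃ ξ, IsForm u ξ ∧ IsAlgebraic ℚ ((t + x) ^ (s * ξ))}.encard ≤
      ((k + 2) * (k + 1) - 1 : ℕ) := by
  obtain ⟨U, hfd, hr, h1, hpi, hu⟩ := finrank_U u
  have hrank := ((Zs_rank (s := (s : ℂ)) (by exact_mod_cast hs) U h1).2
    ⟨Real.pi, hpi, pi_tr, Pool.Agent.HP778.pi_mem_Lt⟩)
  have hle : Module.finrank (algebraicClosure ℚ ℂ) U * (Module.finrank (algebraicClosure ℚ ℂ) U - 1)
      ≤ (k + 2) * (k + 1) := Nat.mul_le_mul hr (by omega)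
  have h2 := translates_enc (real_tr ht) (hrank.weaken (Nat.sub_le_sub_right hle 1))
  refine le_trans ?_ h2
  have hinj : Set.InjOn (fun x : ℝ => (x : ℂ)) {x : ℝ | IsAlgebraic ℚ x ∧ 0 < t + x ∧
      IsAlgebraic ℚ ((t + x) ^ s) ∧ ∃ ξ, IsForm u ξ ∧ IsAlgebraic ℚ ((t + x) ^ (s * ξ))} :=
    fun x _ y _ h => Complex.ofReal_injective h
  rw [← hinj.encard_image]
  apply Set.encard_le_encard
  rintro _ ⟨x, ⟨hx, hpos, h3, ξ, hξ, h4⟩, rfl⟩
  have hne : ((t : ℂ) + (x : ℂ)) ≠ 0 := by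
    have : ((t + x : ℝ) : ℂ) ≠ 0 := by exact_mod_cast hpos.ne'
    rwa [Complex.ofReal_add] at this
  refine ⟨real_alg hx, Units.mk0 _ hne, ⟨(Real.log (t + x) : ℝ), ⟨1, one_pos, ?_⟩, ?_, ξ,
    form_mem hξ h1 hpi hu, real_tr hξ.1, ?_⟩, rfl⟩
  · rw [Nat.cast_one, one_mul, pow_one, ← Complex.ofReal_exp, Real.exp_log hpos, Units.val_mk0,
      Complex.ofReal_add]
  · rw [Real.rpow_def_of_pos hpos] at h3
    have h5 := real_alg h3
    rw [Complex.ofReal_exp] at h5
    push_cast at h5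
    rwa [mul_comm] at h5
  · rw [Real.rpow_def_of_pos hpos] at h4
    have h5 := real_alg h4
    rw [Complex.ofReal_exp] at h5
    have h6 := Lt_log h5
    have e1 : (((Real.log (t + x)) * (s * ξ) : ℝ) : ℂ) =
        (ξ : ℂ) * ((s : ℂ) * (Real.log (t + x) : ℝ)) := by
      push_cast
      ring
    rwa [e1] at h6

theorem pair_enc {t s : ℝ} (ht : Transcendental ℚ t) (hs : s ≠ 0) :
    {x : ℝ | IsAlgebraic ℚ x ∧ 0 < t + x ∧ IsAlgebraic ℚ ((t + x) ^ s) ∧
      IsAlgebraic ℚ ((t + x) ^ (s * Real.pi))}.encard ≤ 1 := by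
  refine le_trans (Set.encard_le_encard ?_) (real_enc (k := 0) Fin.elim0 ht hs)
  rintro x ⟨h1, h2, h3, h4⟩
  refine ⟨h1, h2, h3, Real.pi, ⟨?_, 0, 1, Fin.elim0, isAlgebraic_zero, isAlgebraic_one,
    fun j => j.elim0, by simp⟩, h4⟩
  intro h
  exact pi_tr (real_alg h)

theorem real_pi_tr : Transcendental ℚ Real.pi := fun h => pi_tr (real_alg h)

theorem real_e_tr : Transcendental ℚ (Real.exp 1) := fun h => e_tr (real_alg h)

/-- **Powers of the translates of `π` and `e`.** -/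
theorem result :
    -- (1) the three families of the problem
    {x : ℝ | IsAlgebraic ℚ x ∧ 0 < Real.pi + x ∧ IsAlgebraic ℚ ((Real.pi + x) ^ Real.pi) ∧
      IsAlgebraic ℚ ((Real.pi + x) ^ (Real.pi * Real.pi))}.encard ≤ 1 ∧
    {x : ℝ | IsAlgebraic ℚ x ∧ 0 < Real.pi + x ∧ IsAlgebraic ℚ ((Real.pi + x) ^ Real.exp 1) ∧
      IsAlgebraic ℚ ((Real.pi + x) ^ (Real.exp 1 * Real.pi))}.encard ≤ 1 ∧
    {x : ℝ | IsAlgebraic ℚ x ∧ 0 < Real.exp 1 + x ∧
      IsAlgebraic ℚ ((Real.exp 1 + x) ^ Real.exp 1) ∧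
      IsAlgebraic ℚ ((Real.exp 1 + x) ^ (Real.exp 1 * Real.pi))}.encard ≤ 1 ∧
    -- (2) all transcendental `t`, all exponents `s`, spaces of exponents
    (∀ (k : ℕ) (u : Fin k → ℝ) (t s : ℝ), Transcendental ℚ t → s ≠ 0 →
      {x : ℝ | IsAlgebraic ℚ x ∧ 0 < t + x ∧ IsAlgebraic ℚ ((t + x) ^ s) ∧
        ∃ ξ, IsForm u ξ ∧ IsAlgebraic ℚ ((t + x) ^ (s * ξ))}.encard ≤
        ((k + 2) * (k + 1) - 1 : ℕ)) ∧
    -- (3) all complex bases
    ∃ C : ℕ, ∀ (s : ℂ) (U : Submodule (algebraicClosure ℚ ℂ) ℂ) (R : ℕ), s ≠ 0 →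
      FiniteDimensional (algebraicClosure ℚ ℂ) U → (1 : ℂ) ∈ U →
      (R = Module.finrank (algebraicClosure ℚ ℂ) U *
          (Module.finrank (algebraicClosure ℚ ℂ) U - 1) ∨
        (Real.pi : ℂ) ∈ U ∧ R = Module.finrank (algebraicClosure ℚ ℂ) U *
          (Module.finrank (algebraicClosure ℚ ℂ) U - 1) - 1) →
      RankAtMost (Powers s U) R ∧
      (∀ t : ℂ, Transcendental ℚ t →
        {x : ℂ | IsAlgebraic ℚ x ∧ ∃ z ∈ Powers s U, (z : ℂ) = t + x}.encard ≤ R) ∧
      ∀ a b : ℂ, a ≠ 0 → b ≠ 0 → ∀ E : Finset (ℂˣ × ℂˣ),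
        (∀ e ∈ E, e.1 ∈ Powers s U ∧ e.2 ∈ Powers s U ∧ a * e.1 + b * e.2 = 1) →
          E.card ≤ C ^ (R + 1) := by
  obtain ⟨C, hC1, hC⟩ := line_set
  refine ⟨pair_enc real_pi_tr Real.pi_ne_zero, pair_enc real_pi_tr (Real.exp_ne_zero 1),
    pair_enc real_e_tr (Real.exp_ne_zero 1), fun k u t s ht hs => real_enc u ht hs, C,
    fun s U R hs hfd h1 hR => ?_⟩
  have := hfd
  have hrank : RkLe (Zs s U) R := by
    rcases hR with hR | ⟨hpi, hR⟩
    · rw [hR]
      exact (Zs_rank hs U h1).1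
    · rw [hR]
      exact (Zs_rank hs U h1).2 ⟨Real.pi, hpi, pi_tr, Pool.Agent.HP778.pi_mem_Lt⟩
  exact ⟨hrank, fun t ht => translates_enc ht hrank, fun a b ha hb E hE =>
    hC _ R hrank a b ha hb E hE⟩

end Pool.Agent.Results.MP_a49cf6_nt.TranslatesOfPiAndE
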