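import Mathlib
import Pool.Agent.W254.HP.Prod
import Pool.Agent.U945.LA.Five

/-!
# Five sequences through the five numbers

We consider the five sequences `π + e ^ j`, `π e ^ j`, `e ^ (e ^ j)`, `π ^ (e ^ j)`, `π ^ (π ^ j)`,
`j = 1, 2, …`; for `j = 1` these are the five numbers of the problem. More generally, for `Λ` in the space
`LogForms` of linear forms in `1` and logarithms and for algebraic `β ≠ 0` we consider

  `Λ + β e ^ j`, `Λ + β π e ^ j`, `e ^ (Λ + β e ^ j)`, `e ^ Λ π ^ (β e ^ j)`, `e ^ Λ π ^ (β π ^ j)`.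

(1) For all `j ≤ n` with at most `4 (2 [√n] + 1)` exceptions ALL these numbers are transcendental, for all
`Λ` and all `β`.

(2) Let `t` be transcendental and `v ≠ 0` any complex number. The numbers `v P(t)`, `P` a polynomial of
degree `< n` with algebraic coefficients, form a space of dimension `n`; those of them which are in
`LogForms` form a subspace of dimension at most `2 [√n] + 1`.

Ingredient: the hyperplane case of the linear subgroup theorem of Waldschmidt and Roy, from the starting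
library, in the form of the inequality `dim X W ≥ dim X dim W - dim X (dim X - 1)` for spaces `X` and
`W ⊆ LogForms`.
-/

set_option autoImplicit false

namespace Pool.Agent.Results.MP_a49cf6_nt.UniformSequences

open Module
open Pool.Agent.H301R2.SSE (QB mem_QB Lt Lt_alg Lt_mul Lt_log)

/-- The linear combinations, with algebraic coefficients, of `1` and of logarithms of algebraic
numbers. -/
noncomputable def LogForms : Submodule (algebraicClosure ℚ ℂ) ℂ :=
  Submodule.span (algebraicClosure ℚ ℂ) ({1} ∪ {z : ℂ | IsAlgebraic ℚ (Complex.exp z)})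

/-- The numbers `v P(t)`, `P` a polynomial of degree `< n` with algebraic coefficients. -/
noncomputable def Values (v t : ℂ) (n : ℕ) : Submodule (algebraicClosure ℚ ℂ) ℂ :=
  Submodule.span (algebraicClosure ℚ ℂ) {z | ∃ j < n, z = v * t ^ j}

/-- All numbers considered for `j` are transcendental. -/
def AllTranscendental (j : ℕ) : Prop :=
  ∀ Λ ∈ LogForms, ∀ β : ℂ, IsAlgebraic ℚ β → β ≠ 0 →
    Transcendental ℚ (Λ + β * (Real.exp 1 : ℂ) ^ j) ∧
    Transcendental ℚ (Λ + β * (Real.pi * (Real.exp 1 : ℂ) ^ j)) ∧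
    Transcendental ℚ (Complex.exp (Λ + β * (Real.exp 1 : ℂ) ^ j)) ∧
    Transcendental ℚ (Complex.exp (Λ + β * (Real.exp 1 : ℂ) ^ j * Real.log Real.pi)) ∧
    Transcendental ℚ (Complex.exp (Λ + β * (Real.pi : ℂ) ^ j * Real.log Real.pi))

theorem li {v t : ℂ} (hv : v ≠ 0) (ht : Transcendental ℚ t) (n : ℕ) :
    LinearIndependent QB (fun j : Fin n => v * t ^ (j : ℕ)) := by
  have htr : Transcendental QB t := by
    intro h
    apply ht
    have : Algebra.IsAlgebraic ℚ QB := algebraicClosure.isAlgebraic ℚ ℂ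
    exact h.restrictScalars ℚ
  rw [Fintype.linearIndependent_iff]
  intro g hg i
  have h1 : ∑ j : Fin n, (g j : ℂ) * t ^ (j : ℕ) = 0 := by
    have h2 : v * ∑ j : Fin n, (g j : ℂ) * t ^ (j : ℕ) = 0 := by
      rw [← hg, Finset.mul_sum]
      refine Finset.sum_congr rfl fun s _ => ?_
      rw [Algebra.smul_def]
      change v * ((g s : ℂ) * _) = (g s : ℂ) * _
      ring
    exact (mul_eq_zero.1 h2).resolve_left hv
  by_contra hne
  apply htr
  refine ⟨∑ j : Fin n, Polynomial.monomial (j : ℕ) (g j), ?_, ?_⟩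
  · intro h0
    apply hne
    have h3 := congrArg (fun p => Polynomial.coeff p (i : ℕ)) h0
    simp only [Polynomial.finsetSum_coeff, Polynomial.coeff_monomial, Polynomial.coeff_zero] at h3
    rw [Finset.sum_eq_single i] at h3
    · simpa using h3
    · intro b _ hb
      rw [if_neg]
      intro h
      exact hb (Fin.ext h)
    · intro h
      exact absurd (Finset.mem_univ i) h
  · rw [map_sum]
    simp only [Polynomial.aeval_monomial]
    exact h1

theorem values_eq (v t : ℂ) (n : ℕ) :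
    Values v t n = Submodule.span QB (Set.range (fun j : Fin n => v * t ^ (j : ℕ))) := by
  unfold Values
  congr 1
  ext z
  constructor
  · rintro ⟨j, hj, rfl⟩
    exact ⟨⟨j, hj⟩, rfl⟩
  · rintro ⟨j, rfl⟩
    exact ⟨j, j.2, rfl⟩

instance values_fin (v t : ℂ) (n : ℕ) : FiniteDimensional QB (Values v t n) := by
  rw [values_eq]
  exact FiniteDimensional.span_of_finite QB (Set.finite_range _)

theorem values_rank {v t : ℂ} (hv : v ≠ 0) (ht : Transcendental ℚ t) (n : ℕ) :
    finrank QB (Values v t n) = n := by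
  rw [values_eq, finrank_span_eq_card (li hv ht n), Fintype.card_fin]

theorem rank {v t : ℂ} (hv : v ≠ 0) (ht : Transcendental ℚ t) (n : ℕ) :
    finrank QB (Values v t n ⊓ LogForms : Submodule QB ℂ) ≤ 2 * Nat.sqrt n + 1 := by
  have hfd : FiniteDimensional QB (Values v t n ⊓ LogForms : Submodule QB ℂ) :=
    Submodule.finiteDimensional_inf_left _ _
  rcases Nat.eq_zero_or_pos n with rfl | hn
  · have h1 : finrank QB (Values v t 0 ⊓ LogForms : Submodule QB ℂ) ≤
        finrank QB (Values v t 0) := Submodule.finrank_mono inf_le_left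
    rw [values_rank hv ht] at h1
    omega
  set r := Nat.sqrt n with hr
  have hr1 : 1 ≤ r := Nat.sqrt_pos.2 hn
  have hr2 : n < (r + 1) * (r + 1) := Nat.lt_succ_sqrt n
  have h := Pool.Agent.W254.HP.product_le (Values 1 t r) (Values v t n ⊓ LogForms)
    (Values v t (n + r - 1)) inf_le_right (fun x hx w hw => by
      have h1 : x * w ∈ Values 1 t r * Values v t n := Submodule.mul_mem_mul hx hw.1
      unfold Values at h1
      rw [Submodule.span_mul_span] at h1
      refine Submodule.span_mono ?_ h1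
      rintro _ ⟨_, ⟨i, hi, rfl⟩, _, ⟨j, hj, rfl⟩, rfl⟩
      refine ⟨i + j, by omega, ?_⟩
      dsimp only
      rw [pow_add]
      ring)
  rw [values_rank one_ne_zero ht, values_rank hv ht] at h
  set m := finrank QB (Values v t n ⊓ LogForms : Submodule QB ℂ) with hm
  by_contra hcon
  push Not at hcon
  have h3 : r * (2 * r + 2) ≤ r * m := Nat.mul_le_mul_left r (by omega)
  have h4 : r * (r - 1) + r = r * r := by
    obtain ⟨q, hq⟩ : ∃ q, r = q + 1 := ⟨r - 1, by omega⟩
    rw [hq, Nat.add_sub_cancel]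
    ring
  have h6 : (r + 1) * (r + 1) = r * r + 2 * r + 1 := by ring
  have h7 : r * (2 * r + 2) = 2 * (r * r) + 2 * r := by ring
  have h8 : n + r - 1 + 1 = n + r := by omega
  linarith

open Classical in
theorem number {v t : ℂ} (hv : v ≠ 0) (ht : Transcendental ℚ t) (n : ℕ) :
    ((Finset.Icc 1 n).filter fun j : ℕ => v * t ^ j ∈ LogForms).card ≤ 2 * Nat.sqrt n + 1 := by
  have ht0 : t ≠ 0 := fun h => ht (h ▸ isAlgebraic_zero)
  refine le_trans ?_ (rank (mul_ne_zero hv ht0) ht n)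
  set S := (Finset.Icc 1 n).filter fun j : ℕ => v * t ^ j ∈ LogForms with hS
  have hfd : FiniteDimensional QB (Values (v * t) t n ⊓ LogForms : Submodule QB ℂ) :=
    Submodule.finiteDimensional_inf_left _ _
  have hmem : ∀ j : S, v * t ^ (j : ℕ) ∈ (Values (v * t) t n ⊓ LogForms : Submodule QB ℂ) := by
    rintro ⟨j, hj⟩
    obtain ⟨h1, h2⟩ := Finset.mem_filter.1 hj
    rw [Finset.mem_Icc] at h1
    refine ⟨Submodule.subset_span ⟨j - 1, by omega, ?_⟩, h2⟩
    obtain ⟨i, rfl⟩ : ∃ i, j = i + 1 := ⟨j - 1, by omega⟩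
    rw [Nat.add_sub_cancel]
    change v * t ^ (i + 1) = v * t * t ^ i
    ring
  have hli : LinearIndependent QB (fun j : S =>
      (⟨v * t ^ (j : ℕ), hmem j⟩ : (Values (v * t) t n ⊓ LogForms : Submodule QB ℂ))) := by
    rw [← LinearMap.linearIndependent_iff (Submodule.subtype _) (Submodule.ker_subtype _)]
    have h1 := (li hv ht (n + 1)).comp (fun j : S => (⟨j, by
      have := (Finset.mem_Icc.1 (Finset.mem_filter.1 j.2).1).2
      omega⟩ : Fin (n + 1))) (by
        intro a b hab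
        exact Subtype.ext (congrArg Fin.val hab))
    exact h1
  have h2 := hli.fintype_card_le_finrank
  rwa [Fintype.card_coe] at h2

theorem tr_of {z Λ β : ℂ} (h : z ∉ LogForms) (hΛ : Λ ∈ LogForms) (hβ : IsAlgebraic ℚ β)
    (hβ0 : β ≠ 0) : Λ + β * z ∉ LogForms := by
  intro hcon
  apply h
  have e1 : z = β⁻¹ * ((Λ + β * z) - Λ) := by
    field_simp
    ring
  rw [e1]
  exact Lt_mul hβ.inv (sub_mem hcon hΛ)

theorem e_tr : Transcendental ℚ ((Real.exp 1 : ℝ) : ℂ) := Pool.Agent.U945.LA.e_tr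

theorem pi_tr : Transcendental ℚ ((Real.pi : ℝ) : ℂ) := Pool.Agent.U945.LA.pi_tr

theorem all_of {j : ℕ} (h1 : (1 : ℂ) * ((Real.exp 1 : ℝ) : ℂ) ^ j ∉ LogForms)
    (h2 : (Real.pi : ℂ) * ((Real.exp 1 : ℝ) : ℂ) ^ j ∉ LogForms)
    (h3 : ((Real.log Real.pi : ℝ) : ℂ) * ((Real.exp 1 : ℝ) : ℂ) ^ j ∉ LogForms)
    (h4 : ((Real.log Real.pi : ℝ) : ℂ) * (Real.pi : ℂ) ^ j ∉ LogForms) : AllTranscendental j := by
  intro Λ hΛ β hβ hβ0
  rw [one_mul] at h1
  refine ⟨fun h => tr_of h1 hΛ hβ hβ0 (Lt_alg h), fun h => tr_of h2 hΛ hβ hβ0 (Lt_alg h),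
    fun h => tr_of h1 hΛ hβ hβ0 (Lt_log h), fun h => tr_of h3 hΛ hβ hβ0 (Lt_log ?_),
    fun h => tr_of h4 hΛ hβ hβ0 (Lt_log ?_)⟩
  · have e1 : Λ + β * ((Real.log Real.pi : ℝ) * ((Real.exp 1 : ℝ) : ℂ) ^ j) =
        Λ + β * ((Real.exp 1 : ℝ) : ℂ) ^ j * (Real.log Real.pi : ℝ) := by ring
    rw [e1]
    exact h
  · have e1 : Λ + β * ((Real.log Real.pi : ℝ) * (Real.pi : ℂ) ^ j) =
        Λ + β * (Real.pi : ℂ) ^ j * (Real.log Real.pi : ℝ) := by ring
    rw [e1]
    exact h

open Classical in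
/-- **Five sequences through the five numbers.** -/
theorem result :
    -- (1)
    (∀ n : ℕ, ((Finset.Icc 1 n).filter fun j : ℕ => ¬ AllTranscendental j).card ≤
      4 * (2 * Nat.sqrt n + 1)) ∧
    -- (2)
    ∀ (v t : ℂ) (n : ℕ), v ≠ 0 → Transcendental ℚ t →
      Module.finrank (algebraicClosure ℚ ℂ) (Values v t n) = n ∧
      Module.finrank (algebraicClosure ℚ ℂ)
        (Values v t n ⊓ LogForms : Submodule (algebraicClosure ℚ ℂ) ℂ) ≤ 2 * Nat.sqrt n + 1 := by
  refine ⟨fun n => ?_, fun v t n hv ht => ⟨values_rank hv ht n, rank hv ht n⟩⟩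
  have hpi0 : ((Real.pi : ℝ) : ℂ) ≠ 0 := by exact_mod_cast Real.pi_ne_zero
  have hlog0 : ((Real.log Real.pi : ℝ) : ℂ) ≠ 0 := by
    have h1 : 0 < Real.log Real.pi := Real.log_pos (by linarith [Real.pi_gt_three])
    exact_mod_cast h1.ne'
  have a1 := number (v := 1) one_ne_zero e_tr n
  have a2 := number hpi0 e_tr n
  have a3 := number hlog0 e_tr n
  have a4 := number hlog0 pi_tr n
  have hsub : ((Finset.Icc 1 n).filter fun j : ℕ => ¬ AllTranscendental j) ⊆
      (((Finset.Icc 1 n).filter fun j : ℕ => (1 : ℂ) * ((Real.exp 1 : ℝ) : ℂ) ^ j ∈ LogForms) ∪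
      ((Finset.Icc 1 n).filter fun j : ℕ => (Real.pi : ℂ) * ((Real.exp 1 : ℝ) : ℂ) ^ j ∈ LogForms)) ∪
      (((Finset.Icc 1 n).filter fun j : ℕ =>
        ((Real.log Real.pi : ℝ) : ℂ) * ((Real.exp 1 : ℝ) : ℂ) ^ j ∈ LogForms) ∪
      ((Finset.Icc 1 n).filter fun j : ℕ =>
        ((Real.log Real.pi : ℝ) : ℂ) * (Real.pi : ℂ) ^ j ∈ LogForms)) := by
    intro j hj
    obtain ⟨h1, h2⟩ := Finset.mem_filter.1 hj
    by_contra hcon
    simp only [Finset.mem_union, Finset.mem_filter, not_or, not_and] at hcon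
    exact h2 (all_of (hcon.1.1 h1) (hcon.1.2 h1) (hcon.2.1 h1) (hcon.2.2 h1))
  have h1 := Finset.card_le_card hsub
  have h2 := Finset.card_union_le
    (((Finset.Icc 1 n).filter fun j : ℕ => (1 : ℂ) * ((Real.exp 1 : ℝ) : ℂ) ^ j ∈ LogForms) ∪
      ((Finset.Icc 1 n).filter fun j : ℕ => (Real.pi : ℂ) * ((Real.exp 1 : ℝ) : ℂ) ^ j ∈ LogForms))
    (((Finset.Icc 1 n).filter fun j : ℕ =>
        ((Real.log Real.pi : ℝ) : ℂ) * ((Real.exp 1 : ℝ) : ℂ) ^ j ∈ LogForms) ∪
      ((Finset.Icc 1 n).filter fun j : ℕ =>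
        ((Real.log Real.pi : ℝ) : ℂ) * (Real.pi : ℂ) ^ j ∈ LogForms))
  have h3 := Finset.card_union_le
    ((Finset.Icc 1 n).filter fun j : ℕ => (1 : ℂ) * ((Real.exp 1 : ℝ) : ℂ) ^ j ∈ LogForms)
    ((Finset.Icc 1 n).filter fun j : ℕ => (Real.pi : ℂ) * ((Real.exp 1 : ℝ) : ℂ) ^ j ∈ LogForms)
  have h4 := Finset.card_union_le
    ((Finset.Icc 1 n).filter fun j : ℕ =>
        ((Real.log Real.pi : ℝ) : ℂ) * ((Real.exp 1 : ℝ) : ℂ) ^ j ∈ LogForms)
    ((Finset.Icc 1 n).filter fun j : ℕ =>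
        ((Real.log Real.pi : ℝ) : ℂ) * (Real.pi : ℂ) ^ j ∈ LogForms)
  omega

end Pool.Agent.Results.MP_a49cf6_nt.UniformSequences
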